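import Pool.Agent.H22.LPP.TargetsB

/-!
Geometric last passage percolation (MP_57ddd5_pr): restriction of the leftmost geodesic.
-/

open MeasureTheory ProbabilityTheory

namespace Pool.Agent.H2.LPB

open Pool.Agent.H99.NS Pool.Agent.H22.LPP

theorem m_lamr (h : B_LAM) : B_LAMR := by
  intro ω o e hR s t hos hst hte r hsr hrt
  obtain ⟨⟨hC, hW⟩, hmin⟩ := h ω o e hR
  set L := Lam ω o e with hL
  have hCab : Conn (s, L s) (t, L t) L := hC.restrict hos hte
  have hCoa : Conn o (s, L s) L := hC.left (by omega)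
  have hCbe : Conn (t, L t) e L := hC.right (by omega)
  have hRab : Reach (s, L s) (t, L t) := hCab.reach hst
  have hRoa : Reach o (s, L s) := hCoa.reach hos
  have hRbe : Reach (t, L t) e := hCbe.reach hte
  obtain ⟨⟨hCM, hWM⟩, hminM⟩ := h ω (s, L s) (t, L t) hRab
  set M := Lam ω (s, L s) (t, L t) with hM
  have hsplit : ∀ γ : ℤ → ℤ, wt ω o.1 e.1 γ = wt ω o.1 s γ + wt ω s t γ + wt ω t e.1 γ := by
    intro γ
    rw [wt_add ω (hos.trans hst) hte, wt_add ω hos hst]
  -- the restriction is a geodesic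
  have h1 : T ω o (s, L s) + T ω (s, L s) (t, L t) + T ω (t, L t) e ≤ T ω o e := by
    have e1 := T_superadd ω hRoa hRab
    have e2 := T_superadd ω (reach_trans hRoa hRab) hRbe
    linarith
  have h2 : wt ω o.1 s L ≤ T ω o (s, L s) := le_T ω (v := (s, L s)) hos hCoa
  have h3 : wt ω s t L ≤ T ω (s, L s) (t, L t) := le_T ω (u := (s, L s)) (v := (t, L t)) hst hCab
  have h4 : wt ω t e.1 L ≤ T ω (t, L t) e := le_T ω (u := (t, L t)) hte hCbe
  have h5 := hsplit L
  have h6 : wt ω s t L = T ω (s, L s) (t, L t) := by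
    apply le_antisymm h3
    linarith
  have hMs : M s = L s := hCM.2.1
  have hle : M r ≤ L r := hminM L ⟨hCab, h6⟩ r hsr hrt
  -- the concatenation
  have hc1 := conn_concat (u := o) (v := (s, L s)) (w := (t, L t)) hos hst hCoa hCM
  have hc2 := conn_concat (u := o) (v := (t, L t)) (w := e) (hos.trans hst) hte hc1 hCbe
  set Γ : ℤ → ℤ := fun r => if r ≤ t then (if r ≤ s then L r else M r) else L r with hΓ
  have hc3 : Conn o e Γ := hc2
  have w1 : wt ω o.1 s Γ = wt ω o.1 s L := by
    apply wt_congr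
    intro x _ hx
    have : Γ x = L x := by
      simp only [hΓ]
      rw [if_pos (by omega), if_pos hx]
    rw [this]
  have w2 : wt ω s t Γ = wt ω s t M := by
    apply wt_congr
    intro x hx hx'
    have : Γ x = M x := by
      simp only [hΓ]
      rw [if_pos hx', if_neg (by omega)]
    rw [this]
  have w3 : wt ω t e.1 Γ = wt ω t e.1 L := by
    apply wt_congr
    intro x hx _
    have : Γ x = L x := by
      simp only [hΓ]
      rw [if_neg (by omega)]
    rw [this]
  have w4 : wt ω s t M = T ω (s, L s) (t, L t) := hWM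
  have hG : Geod ω o e Γ := by
    refine ⟨hc3, ?_⟩
    rw [hsplit Γ, w1, w2, w3, w4, ← h6, ← h5, hW]
  have hge := hmin Γ hG r (hos.trans hsr) (hrt.trans hte)
  rcases eq_or_lt_of_le hsr with hrs | hrs
  · rw [← hrs]
    exact hMs
  · have : Γ r = M r := by
      simp only [hΓ]
      rw [if_pos hrt, if_neg (by omega)]
    rw [this] at hge
    exact le_antisymm hle hge

end Pool.Agent.H2.LPB
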